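import Mathlib
import Pool.Agent.S04016

set_option autoImplicit false

namespace Pool.Agent.Results.MP_1fc4c0_an.SymmetricNotRitt

noncomputable section

open Pool.Agent.S04016

/-- A probability measure on the integers, given by its weights. -/
def IsProb (μ : ℤ → ℝ) : Prop := (∀ k, 0 ≤ μ k) ∧ HasSum μ 1

/-- The Fourier transform of a summable weight on the integers. -/
def hat (μ : ℤ → ℝ) (θ : ℝ) : ℂ := ∑' k : ℤ, (μ k : ℂ) * Complex.exp ((k : ℂ) * (θ : ℂ) * Complex.I)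

/-- Convolution on the integers. -/
def convol (μ ν : ℤ → ℝ) (m : ℤ) : ℝ := ∑' j : ℤ, μ j * ν (m - j)

/-- Convolution powers; the power of exponent zero is the unit mass at zero. -/
def cpow (μ : ℤ → ℝ) : ℕ → ℤ → ℝ
  | 0 => fun m => if m = 0 then 1 else 0
  | (n + 1) => convol (cpow μ n) μ

/-- The total variation norm. -/
def tv (ν : ℤ → ℝ) : ℝ := ∑' k : ℤ, |ν k|

/-- Strict aperiodicity. -/
def StrictlyAperiodic (μ : ℤ → ℝ) : Prop := ∀ θ ∈ Set.Ioo (0 : ℝ) (2 * Real.pi), ‖hat μ θ‖ < 1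

/-- Bounded angular ratio. -/
def BAR (μ : ℤ → ℝ) : Prop :=
  StrictlyAperiodic μ ∧
    BddAbove ((fun θ : ℝ => ‖1 - hat μ θ‖ / (1 - ‖hat μ θ‖)) '' Set.Ioo (0 : ℝ) (2 * Real.pi))

/-- The Ritt property on the space of summable functions. -/
def Ritt (μ : ℤ → ℝ) : Prop :=
  BddAbove ((fun n : ℕ => (n : ℝ) * tv (fun k => cpow μ n k - cpow μ (n + 1) k)) '' Set.Ici 1)

lemma conv_eq (p f : ℤ → ℝ) : conv p f = convol f p := rfl

lemma cpow_eq (μ : ℤ → ℝ) (n : ℕ) : cpow μ n = pw μ n := by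
  induction n with
  | zero => rfl
  | succ n ih => rw [pw_succ, ← ih]; rfl

lemma hat_P (θ : ℝ) : hat P θ = ((1 - U θ : ℝ) : ℂ) := by
  rw [← (P_fourier θ).tsum_eq]
  unfold hat ch
  refine tsum_congr (fun k => ?_)
  congr 2
  ring

lemma hat_P_norm (θ : ℝ) : ‖hat P θ‖ = 1 - U θ := by
  rw [hat_P, Complex.norm_real, Real.norm_of_nonneg (by have := U_le_one θ; linarith)]

lemma P_symm (m : ℤ) : P (-m) = P m := by
  have hd : delta0 (-m) = delta0 m := by
    unfold delta0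
    simp
  have e1 : ((fun k : ℕ => ((a k : ℕ) : ℤ)) ⁻¹' {-m} : Set ℕ)
      = ((fun k : ℕ => -((a k : ℕ) : ℤ)) ⁻¹' {m} : Set ℕ) := by
    ext k
    simp only [Set.mem_preimage, Set.mem_singleton_iff]
    constructor <;> intro h <;> omega
  have e2 : ((fun k : ℕ => -((a k : ℕ) : ℤ)) ⁻¹' {-m} : Set ℕ)
      = ((fun k : ℕ => ((a k : ℕ) : ℤ)) ⁻¹' {m} : Set ℕ) := by
    ext k
    simp only [Set.mem_preimage, Set.mem_singleton_iff]
    constructor <;> intro h <;> omega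
  unfold P
  rw [hd, e1, e2]
  ring

/-- There is a symmetric probability measure on the integers with bounded angular ratio
whose Fourier transform is real and nonnegative, and which is not Ritt. -/
theorem result :
    ∃ μ : ℤ → ℝ, IsProb μ ∧ (∀ k, μ (-k) = μ k) ∧ (∀ θ : ℝ, ∃ x : ℝ, 0 ≤ x ∧ hat μ θ = (x : ℂ)) ∧
      BAR μ ∧ ¬ Ritt μ := by
  have hU : ∀ θ ∈ Set.Ioo (0 : ℝ) (2 * Real.pi), 0 < U θ := fun θ h => U_pos θ h.1 h.2
  refine ⟨P, ⟨P_nonneg, P_hasSum_one⟩, P_symm, ?_, ⟨?_, ?_⟩, ?_⟩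
  · intro θ
    exact ⟨1 - U θ, by have := U_le_one θ; linarith, hat_P θ⟩
  · intro θ h
    have := hU θ h
    rw [hat_P_norm]
    linarith
  · refine ⟨1, ?_⟩
    rintro _ ⟨θ, h, rfl⟩
    have h1 := hU θ h
    have h2 : (1 : ℂ) - ((1 - U θ : ℝ) : ℂ) = ((U θ : ℝ) : ℂ) := by push_cast; ring
    show ‖1 - hat P θ‖ / (1 - ‖hat P θ‖) ≤ 1
    rw [hat_P_norm, hat_P, h2, Complex.norm_real, Real.norm_of_nonneg h1.le]
    rw [sub_sub_cancel, div_self h1.ne']
  · rintro ⟨C, hC⟩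
    refine not_ritt ⟨max C 0, fun n => ?_⟩
    rcases Nat.eq_zero_or_pos n with h | h
    · subst h
      simp
    · have h1 := hC ⟨n, h, rfl⟩
      have h2 : (n : ℝ) * T P n ≤ C := by
        have h3 : (n : ℝ) * tv (fun k => cpow P n k - cpow P (n + 1) k) ≤ C := h1
        rw [cpow_eq, cpow_eq] at h3
        exact h3
      exact h2.trans (le_max_left _ _)

end

end Pool.Agent.Results.MP_1fc4c0_an.SymmetricNotRitt
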